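import Pool.Agent.Helper80.CB.Stmts

/-!
# Complex Banach conjecture, algebra half: module A_CHAMB
-/

namespace Pool.Agent.Helper80.CB

open Matrix

/-- Roots are differences of weights. -/
lemma chamb_root {n : ℕ} {D : Cpt n} {t : Submodule ℝ (Mat n)} (ht : Torus D t) {E : Mat n}
    {α : t →ₗ[ℝ] ℝ} (h : RootVec D t E α) :
    ∃ i j : Fin n, α = wt t i - wt t j := by
  obtain ⟨i, j, hij⟩ : ∃ i j, E i j ≠ 0 := by
    by_contra hc
    push Not at hc
    exact h.ne (by ext i j; exact hc i j)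
  refine ⟨i, j, LinearMap.ext fun x => ?_⟩
  have h1 := congrFun (congrFun (h.eig x) i) j
  have h2 : ((x : Mat n) * E) i j = (x : Mat n) i i * E i j := by
    rw [Matrix.mul_apply, Finset.sum_eq_single i]
    · intro k _ hk
      rw [ht.diag x x.2 i k (Ne.symm hk), zero_mul]
    · simp
  have h3 : (E * (x : Mat n)) i j = E i j * (x : Mat n) j j := by
    rw [Matrix.mul_apply, Finset.sum_eq_single j]
    · intro k _ hk
      rw [ht.diag x x.2 k j hk, mul_zero]
    · simp
  simp only [Matrix.sub_apply, Matrix.smul_apply, smul_eq_mul, h2, h3] at h1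
  have h4 : (x : Mat n) i i - (x : Mat n) j j = ((α x : ℝ) : ℂ) := by
    have h5 : ((x : Mat n) i i - (x : Mat n) j j) * E i j = ((α x : ℝ) : ℂ) * E i j := by
      linear_combination h1
    exact mul_right_cancel₀ hij h5
  have h6 := congrArg Complex.re h4
  simp only [Complex.sub_re, Complex.ofReal_re] at h6
  exact h6.symm

/-- The scalar product of the coroot with an element of the torus. -/
lemma chamb_ip {n : ℕ} {D : Cpt n} {t : Submodule ℝ (Mat n)} {E : Mat n}
    {α : t →ₗ[ℝ] ℝ} {v : t} (h : RootVec D t E α) {c : ℝ}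
    (hv : (v : Mat n) = (c : ℂ) • (E * Eᴴ - Eᴴ * E)) (x : t) :
    ip (v : Mat n) (x : Mat n) = (c * (Matrix.trace (Eᴴ * E)).re) * α x := by
  have h1 : (v : Mat n)ᴴ = (c : ℂ) • (E * Eᴴ - Eᴴ * E) := by
    rw [hv, Matrix.conjTranspose_smul, Matrix.conjTranspose_sub, Matrix.conjTranspose_mul,
      Matrix.conjTranspose_mul, Matrix.conjTranspose_conjTranspose]
    congr 1
    exact Complex.conj_ofReal c
  have h2 : Matrix.trace ((E * Eᴴ - Eᴴ * E) * (x : Mat n))
      = ((α x : ℝ) : ℂ) * Matrix.trace (Eᴴ * E) := by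
    have e1 : Matrix.trace (E * Eᴴ * (x : Mat n)) = Matrix.trace (Eᴴ * ((x : Mat n) * E)) := by
      rw [Matrix.mul_assoc, Matrix.trace_mul_comm, Matrix.mul_assoc]
    have e2 : Matrix.trace (Eᴴ * E * (x : Mat n)) = Matrix.trace (Eᴴ * (E * (x : Mat n))) := by
      rw [Matrix.mul_assoc]
    rw [Matrix.sub_mul, Matrix.trace_sub, e1, e2, ← Matrix.trace_sub, ← Matrix.mul_sub, h.eig x,
      Matrix.mul_smul, Matrix.trace_smul, smul_eq_mul]
  have h3 : Matrix.trace (((v : Mat n))ᴴ * (x : Mat n))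
      = (c : ℂ) * (((α x : ℝ) : ℂ) * Matrix.trace (Eᴴ * E)) := by
    rw [h1, Matrix.smul_mul, Matrix.trace_smul, smul_eq_mul, h2]
  unfold ip
  rw [h3, ← mul_assoc, ← Complex.ofReal_mul, Complex.re_ofReal_mul]
  ring

lemma chamb_trpos {n : ℕ} {E : Mat n} (h : E ≠ 0) : 0 < (Matrix.trace (Eᴴ * E)).re := by
  have h1 : (Matrix.trace (Eᴴ * E)).re = ∑ j, ∑ i, ‖E i j‖ ^ 2 := by
    rw [Matrix.trace, Complex.re_sum]
    refine Finset.sum_congr rfl fun j _ => ?_
    rw [Matrix.diag_apply, Matrix.mul_apply, Complex.re_sum]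
    refine Finset.sum_congr rfl fun i _ => ?_
    rw [Matrix.conjTranspose_apply, Complex.star_def, ← Complex.normSq_eq_conj_mul_self,
      Complex.ofReal_re, Complex.normSq_eq_norm_sq]
  rw [h1]
  obtain ⟨i, j, hij⟩ : ∃ i j, E i j ≠ 0 := by
    by_contra hc
    push Not at hc
    exact h (by ext i j; exact hc i j)
  refine Finset.sum_pos' (fun j _ => Finset.sum_nonneg fun i _ => sq_nonneg _)
    ⟨j, Finset.mem_univ _, ?_⟩
  exact Finset.sum_pos' (fun i _ => sq_nonneg _)
    ⟨i, Finset.mem_univ _, pow_pos (norm_pos_iff.mpr hij) 2⟩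

/-- The coroot and the reflection are determined by the root vector. -/
lemma chamb_uniq {n : ℕ} {D : Cpt n} {t : Submodule ℝ (Mat n)} {E : Mat n}
    {α : t →ₗ[ℝ] ℝ} {v v' : t} {s s' : t ≃ₗ[ℝ] t} (h : RootRefl D t E α v s)
    (h' : RootRefl D t E α v' s') : s = s' := by
  obtain ⟨hE, ⟨c, hc, hv⟩, h2, hs⟩ := h
  obtain ⟨-, ⟨c', hc', hv'⟩, h2', hs'⟩ := h'
  have e1 : v' = (c' / c) • v := by
    apply Subtype.ext
    rw [Submodule.coe_smul, hv', hv]
    ext i j
    simp only [Matrix.smul_apply, smul_eq_mul, Complex.real_smul]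
    rw [← mul_assoc, ← Complex.ofReal_mul, div_mul_cancel₀ _ hc.ne']
  have e2 : v' = v := by
    have h3 := h2'
    rw [e1, map_smul, h2, smul_eq_mul] at h3
    have h4 : c' / c = 1 := by linarith
    rw [e1, h4, one_smul]
  apply LinearEquiv.ext
  intro x
  rw [hs, hs', e2]

lemma chamb_ip_add {n : ℕ} (X Y Z : Mat n) : ip (X + Y) Z = ip X Z + ip Y Z := by
  unfold ip
  rw [Matrix.conjTranspose_add, Matrix.add_mul, Matrix.trace_add, Complex.add_re]

lemma chamb_ip_comm {n : ℕ} (X Y : Mat n) : ip X Y = ip Y X := by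
  unfold ip
  have h : Matrix.trace (Yᴴ * X) = star (Matrix.trace (Xᴴ * Y)) := by
    rw [← Matrix.trace_conjTranspose, Matrix.conjTranspose_mul,
      Matrix.conjTranspose_conjTranspose]
  rw [h]
  simp

lemma chamb_ip_smul {n : ℕ} (a : ℝ) (X Y : Mat n) : ip (a • X) Y = a * ip X Y := by
  unfold ip
  have h : (a • X)ᴴ * Y = a • (Xᴴ * Y) := by
    rw [Matrix.conjTranspose_smul, Matrix.smul_mul]
    simp
  rw [h, Matrix.trace_smul, Complex.real_smul, Complex.re_ofReal_mul]

/-- Expansion of the square distance after a reflection. -/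
lemma chamb_expand {n : ℕ} (u v : Mat n) (a : ℝ) :
    ip (u - a • v) (u - a • v) = ip u u - 2 * a * ip v u + a ^ 2 * ip v v := by
  have h1 : u - a • v = u + (-a) • v := by rw [neg_smul, sub_eq_add_neg]
  rw [h1, chamb_ip_add, chamb_ip_smul, chamb_ip_comm u, chamb_ip_add, chamb_ip_smul,
    chamb_ip_comm v (u + _), chamb_ip_add, chamb_ip_smul, chamb_ip_comm u v]
  ring

theorem st_CHAMB (hRREF : ST_RREF) (hWFIN : ST_WFIN) (hWPERM : ST_WPERM) (hAVOID : ST_AVOID) :
    ST_CHAMB := by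
  intro n D t ht w hw
  classical
  -- a generic element
  obtain ⟨y, hy⟩ : ∃ y : t, ∀ i j : Fin n, wt t i ≠ wt t j → wt t i y ≠ wt t j y := by
    let S := {p : Fin n × Fin n // wt t p.1 - wt t p.2 ≠ 0}
    have : Fintype S := Fintype.ofFinite S
    let e := Fintype.equivFin S
    obtain ⟨y, hy⟩ := hAVOID t (Fintype.card S)
      (fun k => wt t (e.symm k).1.1 - wt t (e.symm k).1.2) (fun k => (e.symm k).2)
    refine ⟨y, fun i j hij => ?_⟩
    have h1 : wt t (i, j).1 - wt t (i, j).2 ≠ 0 := sub_ne_zero.mpr hij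
    have h2 := hy (e ⟨(i, j), h1⟩)
    simp only [Equiv.symm_apply_apply, LinearMap.sub_apply] at h2
    exact sub_ne_zero.mp h2
  -- the group generated by the reflections is finite
  have hle : Subgroup.closure (reflSet D t) ≤ weyl D t := by
    rw [Subgroup.closure_le]
    rintro s ⟨E, α, v, h⟩
    obtain ⟨s', hs', v', h'⟩ := hRREF n D t ht E α h.1
    rw [chamb_uniq h h']
    exact hs'
  have := hWFIN n D t ht
  have hfin : (Subgroup.closure (reflSet D t) : Set (t ≃ₗ[ℝ] t)).Finite :=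
    Set.Finite.subset (Set.toFinite (weyl D t : Set (t ≃ₗ[ℝ] t))) hle
  obtain ⟨v, hv, hmin⟩ := hfin.exists_minimalFor
    (fun v : t ≃ₗ[ℝ] t =>
      ip (((v (w y) : t) : Mat n) - (y : Mat n)) (((v (w y) : t) : Mat n) - (y : Mat n))) _
    ⟨1, Subgroup.one_mem _⟩
  refine ⟨v, hv, y, fun E α hE => ?_⟩
  obtain ⟨i, j, hα⟩ := chamb_root ht hE
  have hαy : α y ≠ 0 := by
    rw [hα, LinearMap.sub_apply]
    refine sub_ne_zero.mpr (hy i j fun h => hE.root ?_)
    rw [hα, h, sub_self]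
  have hαz : α (v (w y)) ≠ 0 := by
    have hu : v * w ∈ weyl D t := mul_mem (hle hv) hw
    obtain ⟨σ, hσ⟩ := hWPERM n D t ht _ hu
    have e1 : ∀ x, α ((v * w) x) = wt t (σ i) x - wt t (σ j) x := fun x => by
      rw [hα, LinearMap.sub_apply, hσ, hσ]
    have e2 : α (v (w y)) = α ((v * w) y) := rfl
    rw [e2, e1]
    refine sub_ne_zero.mpr (hy _ _ fun h => hE.root ?_)
    apply LinearMap.ext
    intro x
    have e3 := e1 ((v * w)⁻¹ x)
    have e4 : (v * w) ((v * w)⁻¹ x) = x := by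
      change ((v * w) * (v * w)⁻¹) x = x
      rw [mul_inv_cancel]; rfl
    rw [e4, h, sub_self] at e3
    rw [e3]; rfl
  obtain ⟨s, hs, v0, hrr⟩ := hRREF n D t ht E α hE
  have hsm : s * v ∈ Subgroup.closure (reflSet D t) :=
    mul_mem (Subgroup.subset_closure ⟨E, α, v0, hrr⟩) hv
  obtain ⟨-, ⟨c, hc, hcv⟩, h2, hsx⟩ := hrr
  have hge : ip (((v (w y) : t) : Mat n) - (y : Mat n)) (((v (w y) : t) : Mat n) - (y : Mat n))
      ≤ ip ((((s * v) (w y) : t) : Mat n) - (y : Mat n))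
        ((((s * v) (w y) : t) : Mat n) - (y : Mat n)) := by
    by_contra hcon
    exact hcon (hmin hsm (le_of_lt (not_le.mp hcon)))
  set z : t := v (w y) with hz
  have e5 : (((s * v) (w y) : t) : Mat n) - (y : Mat n) = ((z : Mat n) - (y : Mat n)) - (α z) • (v0 : Mat n) := by
    have : (s * v) (w y) = z - α z • v0 := hsx z
    rw [this, Submodule.coe_sub, Submodule.coe_smul]
    abel
  rw [e5, chamb_expand] at hge
  have e6 : ip (v0 : Mat n) ((z : Mat n) - (y : Mat n)) = (c * (Matrix.trace (Eᴴ * E)).re) * α (z - y) := by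
    rw [← chamb_ip hE hcv (z - y), Submodule.coe_sub]
  have e7 : ip (v0 : Mat n) (v0 : Mat n) = (c * (Matrix.trace (Eᴴ * E)).re) * 2 := by
    rw [chamb_ip hE hcv v0, h2]
  have hK : 0 < c * (Matrix.trace (Eᴴ * E)).re := mul_pos hc (chamb_trpos hE.ne)
  set K := c * (Matrix.trace (Eᴴ * E)).re with hKdef
  rw [e6, e7, map_sub] at hge
  have h8 : 0 ≤ K * (α z * α y) := by nlinarith
  have h9 : 0 ≤ α z * α y := nonneg_of_mul_nonneg_right h8 hK
  exact lt_of_le_of_ne h9 (Ne.symm (mul_ne_zero hαz hαy))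

end Pool.Agent.Helper80.CB
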